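import Pool.Agent.helper38.OB.Spec

namespace Pool.Agent.OB

open Finset

theorem BHC_im {h : ℕ} {A : Set ℕ} (hA : IsBh h A) (e : Fin h → ℤ) (he : Sg e) (t : ℤ) (x y : Fin h → ℕ)
    (hx : x ∈ Tup A e fun s => s = t) (hy : y ∈ Tup A e fun s => s = t) (i : Fin h) :
    x i ∈ Finset.univ.image y := by
  classical
  obtain ⟨hxA, hxn, hxt⟩ := hx
  obtain ⟨hyA, hyn, hyt⟩ := hy
  set P : Finset (Fin h) := Finset.univ.filter fun i => e i = 1 with hP
  set Q : Finset (Fin h) := Finset.univ.filter fun i => ¬ e i = 1 with hQ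
  have hcard : P.card + Q.card = h := by
    rw [hP, hQ, Finset.card_filter_add_card_filter_not, Finset.card_univ, Fintype.card_fin]
  have hsplit : ∀ z : Fin h → ℕ, (∑ i, e i * (z i : ℤ)) = (∑ i ∈ P, (z i : ℤ)) - ∑ i ∈ Q, (z i : ℤ) := by
    intro z
    rw [← Finset.sum_filter_add_sum_filter_not Finset.univ (fun i => e i = 1) (fun i => e i * (z i : ℤ)), ← hP, ← hQ]
    have h1 : ∑ i ∈ P, e i * (z i : ℤ) = ∑ i ∈ P, (z i : ℤ) := by
      refine Finset.sum_congr rfl fun i hi => ?_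
      rw [(Finset.mem_filter.1 hi).2, one_mul]
    have h2 : ∑ i ∈ Q, e i * (z i : ℤ) = - ∑ i ∈ Q, (z i : ℤ) := by
      rw [← Finset.sum_neg_distrib]
      refine Finset.sum_congr rfl fun i hi => ?_
      have h3 : e i = -1 := (he i).resolve_left (Finset.mem_filter.1 hi).2
      rw [h3]
      ring
    rw [h1, h2]
    ring
  have hsum : (∑ i ∈ P, x i) + (∑ i ∈ Q, y i) = (∑ i ∈ P, y i) + ∑ i ∈ Q, x i := by
    have h1 := hsplit x
    have h2 := hsplit y
    rw [hxt] at h1
    rw [hyt] at h2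
    zify
    linarith
  have hms := hA (P.val.map x + Q.val.map y) (P.val.map y + Q.val.map x)
    (by rw [Multiset.card_add, Multiset.card_map, Multiset.card_map]; exact hcard)
    (by rw [Multiset.card_add, Multiset.card_map, Multiset.card_map]; exact hcard)
    (by
      intro z hz
      rw [Multiset.mem_add, Multiset.mem_map, Multiset.mem_map] at hz
      rcases hz with ⟨a, -, rfl⟩ | ⟨a, -, rfl⟩
      · exact hxA a
      · exact hyA a)
    (by
      intro z hz
      rw [Multiset.mem_add, Multiset.mem_map, Multiset.mem_map] at hz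
      rcases hz with ⟨a, -, rfl⟩ | ⟨a, -, rfl⟩
      · exact hyA a
      · exact hxA a)
    (by
      rw [Multiset.sum_add, Multiset.sum_add]
      exact hsum)
  have hmP : ∀ a, a ∈ P ↔ e a = 1 := fun a => by rw [hP, Finset.mem_filter]; exact ⟨fun h => h.2, fun h => ⟨Finset.mem_univ _, h⟩⟩
  have hmQ : ∀ a, a ∈ Q ↔ ¬ e a = 1 := fun a => by rw [hQ, Finset.mem_filter]; exact ⟨fun h => h.2, fun h => ⟨Finset.mem_univ _, h⟩⟩
  rw [Finset.mem_image]
  by_cases hi : e i = 1
  · have h1 : x i ∈ P.val.map x + Q.val.map y :=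
      Multiset.mem_add.2 (Or.inl (Multiset.mem_map.2 ⟨i, (hmP i).2 hi, rfl⟩))
    rw [hms, Multiset.mem_add, Multiset.mem_map, Multiset.mem_map] at h1
    rcases h1 with ⟨a, -, ha⟩ | ⟨a, ha, ha'⟩
    · exact ⟨a, Finset.mem_univ _, ha⟩
    · exfalso
      have h2 : ¬ e a = 1 := (hmQ a).1 ha
      exact hxn a i (fun h3 => h2 (h3.trans hi)) ha'
  · have h1 : x i ∈ P.val.map y + Q.val.map x :=
      Multiset.mem_add.2 (Or.inr (Multiset.mem_map.2 ⟨i, (hmQ i).2 hi, rfl⟩))
    rw [← hms, Multiset.mem_add, Multiset.mem_map, Multiset.mem_map] at h1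
    rcases h1 with ⟨a, ha, ha'⟩ | ⟨a, -, ha⟩
    · exfalso
      have h2 : e a = 1 := (hmP a).1 ha
      exact hxn a i (fun h3 => hi (h3.symm.trans h2)) ha'
    · exact ⟨a, Finset.mem_univ _, ha⟩

theorem BHC : BHC_stmt := by
  classical
  intro h _ A hA
  refine ⟨3 * h ^ h, ?_⟩
  intro e he N hN
  have key : ∀ t : ℤ, ∃ F : Finset (Fin h → ℕ), (∀ x ∈ Tup A e (fun s => s = t), x ∈ F) ∧ F.card ≤ h ^ h := by
    intro t
    rcases (Tup A e fun s => s = t).eq_empty_or_nonempty with h1 | ⟨y, hy⟩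
    · refine ⟨∅, ?_, ?_⟩
      · intro x hx
        rw [h1] at hx
        exact absurd hx (Set.notMem_empty x)
      · rw [Finset.card_empty]
        exact Nat.zero_le _
    · refine ⟨Fintype.piFinset fun _ => Finset.univ.image y, ?_, ?_⟩
      · intro x hx
        rw [Fintype.mem_piFinset]
        exact fun i => BHC_im hA e he t x y hx hy i
      · rw [Fintype.card_piFinset, Finset.prod_const, Finset.card_univ, Fintype.card_fin]
        refine Nat.pow_le_pow_left ?_ _
        refine Finset.card_image_le.trans ?_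
        rw [Finset.card_univ, Fintype.card_fin]
  choose F hF1 hF2 using key
  have hsub : (Tup A e fun t => |t| ≤ N) ⊆ ↑((Finset.Icc (-(N : ℤ)) N).biUnion F) := by
    intro x hx
    obtain ⟨hxA, hxn, hxt⟩ := hx
    rw [Finset.mem_coe, Finset.mem_biUnion]
    refine ⟨∑ i, e i * (x i : ℤ), ?_, hF1 _ x ⟨hxA, hxn, rfl⟩⟩
    rw [Finset.mem_Icc]
    exact abs_le.1 hxt
  refine ⟨(Finset.finite_toSet _).subset hsub, ?_⟩
  refine (Set.ncard_le_ncard hsub (Finset.finite_toSet _)).trans ?_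
  rw [Set.ncard_coe_finset]
  refine (Finset.card_biUnion_le_card_mul _ _ _ fun t _ => hF2 t).trans ?_
  rw [Int.card_Icc]
  have h2 : ((N : ℤ) + 1 - -(N : ℤ)).toNat ≤ 3 * N := by omega
  calc ((N : ℤ) + 1 - -(N : ℤ)).toNat * h ^ h ≤ (3 * N) * h ^ h := Nat.mul_le_mul_right _ h2
    _ = 3 * h ^ h * N := by ring

end Pool.Agent.OB
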