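import Pool.Agent.helper38.OB.Spec

namespace Pool.Agent.OB

open Finset

theorem TC_cover {j : ℕ} {ι : Type} [Fintype ι] (F : Finset (Fin j → ℕ)) (G : ι → Finset (Fin j → ℕ))
    (f : (Fin j → ℕ) → ℝ) (hf : ∀ x, 0 ≤ f x) (hFG : ∀ x ∈ F, ∃ i, x ∈ G i) :
    ∑ x ∈ F, f x ≤ ∑ i : ι, ∑ x ∈ G i, f x := by
  classical
  have h1 : ∑ x ∈ F, f x ≤ ∑ x ∈ F, ∑ i : ι, (if x ∈ G i then f x else 0) := by
    refine Finset.sum_le_sum fun x hx => ?_
    obtain ⟨i, hi⟩ := hFG x hx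
    have h2 : (if x ∈ G i then f x else 0) ≤ ∑ i : ι, (if x ∈ G i then f x else 0) := by
      refine Finset.single_le_sum (f := fun i => if x ∈ G i then f x else 0) ?_ (Finset.mem_univ i)
      intro k _
      split_ifs
      · exact hf x
      · exact le_rfl
    rw [if_pos hi] at h2
    exact h2
  refine h1.trans ?_
  rw [Finset.sum_comm]
  refine Finset.sum_le_sum fun i _ => ?_
  rw [← Finset.sum_filter]
  refine Finset.sum_le_sum_of_subset_of_nonneg ?_ (fun x _ _ => hf x)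
  intro x hx
  exact (Finset.mem_filter.1 hx).2

theorem TC_C0 (h : ℕ) (hh : 3 ≤ h) : 1 ≤ C0 h := by
  unfold C0
  have : 1 ≤ h ^ 2 := Nat.one_le_pow _ _ (by omega)
  omega

theorem TC_card (hCEL : CEL_stmt) (h : ℕ) (hh : 3 ≤ h) (l J : ℕ) (hJ : J ≤ l) (c r : ℤ) (hc : c ≠ 0) :
    ((S h l).filter fun y : ℕ => |r + c * (y : ℤ)| ≤ ((Bs h ^ J : ℕ) : ℤ)).card * C0 h ^ (J - lo h l) ≤
      6 * Bs h ^ J := by
  classical
  rcases ((S h l).filter fun y : ℕ => |r + c * (y : ℤ)| ≤ ((Bs h ^ J : ℕ) : ℤ)).eq_empty_or_nonempty with he | ⟨y0, hy0⟩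
  · rw [he, Finset.card_empty, Nat.zero_mul]
    exact Nat.zero_le _
  · have h1 := hCEL h hh l J hJ (y0 : ℤ)
    have hsub : ((S h l).filter fun y : ℕ => |r + c * (y : ℤ)| ≤ ((Bs h ^ J : ℕ) : ℤ)) ⊆
        (S h l).filter fun x : ℕ => |(x : ℤ) - (y0 : ℤ)| ≤ 2 * (Bs h : ℤ) ^ J := by
      intro y hy
      rw [Finset.mem_filter] at hy hy0 ⊢
      refine ⟨hy.1, ?_⟩
      have a1 := hy.2
      have a2 := hy0.2
      push_cast at a1 a2
      have a3 : |c * ((y : ℤ) - (y0 : ℤ))| ≤ 2 * (Bs h : ℤ) ^ J := by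
        have e : c * ((y : ℤ) - (y0 : ℤ)) = (r + c * (y : ℤ)) - (r + c * (y0 : ℤ)) := by ring
        rw [e]
        refine (abs_sub _ _).trans ?_
        linarith
      refine le_trans ?_ a3
      rw [abs_mul]
      have hc1 : 1 ≤ |c| := Int.one_le_abs hc
      nlinarith [abs_nonneg ((y : ℤ) - (y0 : ℤ))]
    exact (Nat.mul_le_mul_right _ (Finset.card_le_card hsub)).trans h1

theorem TC_num (h : ℕ) (hh : 3 ≤ h) (κ : ℝ) (hκ : 0 < κ) (l J : ℕ) (hJ : J ≤ l) (hd : dep h l ≤ l) :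
    6 * (Bs h : ℝ) ^ J / (C0 h : ℝ) ^ (J - lo h l) * pl h κ l *
      ((κ * (be h : ℝ) ^ max (lo h l) J) * (2 * κ * (be h : ℝ) ^ l) ^ (h - 2)) ≤
      6 * (C0 h * 2 ^ h) * κ ^ h * (Bs h : ℝ) ^ J / (C0 h : ℝ) ^ (5 * min (l - J) (dep h l)) := by
  have hC0 : 1 ≤ C0 h := TC_C0 h hh
  have hC0R : (1 : ℝ) ≤ (C0 h : ℝ) := by exact_mod_cast hC0
  have hC0p : (0 : ℝ) < (C0 h : ℝ) := by linarith
  have hbe : (be h : ℝ) = (C0 h : ℝ) ^ 6 := by
    unfold be
    push_cast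
    ring
  have hbe1 : (1 : ℝ) ≤ (be h : ℝ) := by
    rw [hbe]
    exact one_le_pow₀ hC0R
  have hbep : (0 : ℝ) < (be h : ℝ) := by linarith
  have hBs : (Bs h : ℝ) = (be h : ℝ) ^ h := by
    unfold Bs
    push_cast
    ring
  have hBsp : (0 : ℝ) < (Bs h : ℝ) := by
    rw [hBs]
    positivity
  obtain ⟨k, hk⟩ : ∃ k, h = k + 2 := ⟨h - 2, by omega⟩
  have hk2 : h - 2 = k := by omega
  -- exponents
  have hexp : dep h l + 5 * min (l - J) (dep h l) = (J - lo h l) + 6 * (l - max (lo h l) J) := by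
    unfold lo
    rcases le_total (l - dep h l) J with h1 | h1
    · rw [max_eq_right h1, min_eq_left (by omega)]
      omega
    · rw [max_eq_left h1, min_eq_right (by omega)]
      omega
  have hmax : max (lo h l) J ≤ l := by
    unfold lo
    exact max_le (Nat.sub_le _ _) hJ
  have e1 : (be h : ℝ) ^ l * (be h : ℝ) ^ max (lo h l) J * (be h : ℝ) ^ (l * k) *
      (be h : ℝ) ^ (l - max (lo h l) J) ≤ (Bs h : ℝ) ^ (l + 1) := by
    rw [hBs, ← pow_mul, ← pow_add, ← pow_add, ← pow_add]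
    refine pow_le_pow_right₀ hbe1 ?_
    rw [hk]
    have : l * k = k * l := Nat.mul_comm _ _
    have h2 : (k + 2) * (l + 1) = k * l + k + 2 * l + 2 := by ring
    rw [← hk]
    rw [hk] at hmax ⊢
    rw [h2]
    omega
  have e2 : (C0 h : ℝ) ^ (dep h l) * (C0 h : ℝ) ^ (5 * min (l - J) (dep h l)) =
      (C0 h : ℝ) ^ (J - lo h l) * (be h : ℝ) ^ (l - max (lo h l) J) := by
    rw [hbe, ← pow_mul, ← pow_add, ← pow_add, hexp]
  have e3 : (2 * κ * (be h : ℝ) ^ l) ^ (h - 2) ≤ 2 ^ h * κ ^ k * (be h : ℝ) ^ (l * k) := by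
    rw [hk2, mul_pow, mul_pow, ← pow_mul]
    have : (2 : ℝ) ^ k ≤ 2 ^ h := pow_le_pow_right₀ (by norm_num) (by omega)
    gcongr
  have hX : (0 : ℝ) < (C0 h : ℝ) ^ (J - lo h l) := by positivity
  have hY : (0 : ℝ) < (C0 h : ℝ) ^ (5 * min (l - J) (dep h l)) := by positivity
  have hZ : (0 : ℝ) < (Bs h : ℝ) ^ (l + 1) := by positivity
  have hκh : κ ^ h = κ ^ k * κ * κ := by
    rw [hk]
    ring
  unfold pl
  rw [le_div_iff₀ hY]
  have step : 6 * (Bs h : ℝ) ^ J / (C0 h : ℝ) ^ (J - lo h l) *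
      (κ * (be h : ℝ) ^ l * (C0 h : ℝ) ^ (dep h l + 1) / (Bs h : ℝ) ^ (l + 1)) *
      ((κ * (be h : ℝ) ^ max (lo h l) J) * (2 * κ * (be h : ℝ) ^ l) ^ (h - 2)) *
        (C0 h : ℝ) ^ (5 * min (l - J) (dep h l)) ≤
      6 * (Bs h : ℝ) ^ J / (C0 h : ℝ) ^ (J - lo h l) *
      (κ * (be h : ℝ) ^ l * (C0 h : ℝ) ^ (dep h l + 1) / (Bs h : ℝ) ^ (l + 1)) *
      ((κ * (be h : ℝ) ^ max (lo h l) J) * (2 ^ h * κ ^ k * (be h : ℝ) ^ (l * k))) *
        (C0 h : ℝ) ^ (5 * min (l - J) (dep h l)) := by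
    gcongr
  refine step.trans ?_
  have e4 : 6 * (Bs h : ℝ) ^ J / (C0 h : ℝ) ^ (J - lo h l) *
      (κ * (be h : ℝ) ^ l * (C0 h : ℝ) ^ (dep h l + 1) / (Bs h : ℝ) ^ (l + 1)) *
      ((κ * (be h : ℝ) ^ max (lo h l) J) * (2 ^ h * κ ^ k * (be h : ℝ) ^ (l * k))) *
        (C0 h : ℝ) ^ (5 * min (l - J) (dep h l)) =
      6 * (C0 h * 2 ^ h) * κ ^ h * (Bs h : ℝ) ^ J *
        (((be h : ℝ) ^ l * (be h : ℝ) ^ max (lo h l) J * (be h : ℝ) ^ (l * k)) *
          (((C0 h : ℝ) ^ (dep h l) * (C0 h : ℝ) ^ (5 * min (l - J) (dep h l))) / (C0 h : ℝ) ^ (J - lo h l)) /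
            (Bs h : ℝ) ^ (l + 1)) := by
    rw [hκh, pow_succ (C0 h : ℝ) (dep h l)]
    field_simp
  rw [e4, e2, mul_div_cancel_left₀ _ hX.ne']
  have e5 : (be h : ℝ) ^ l * (be h : ℝ) ^ max (lo h l) J * (be h : ℝ) ^ (l * k) *
      (be h : ℝ) ^ (l - max (lo h l) J) / (Bs h : ℝ) ^ (l + 1) ≤ 1 := by
    rw [div_le_one hZ]
    exact e1
  calc 6 * (C0 h * 2 ^ h) * κ ^ h * (Bs h : ℝ) ^ J *
        ((be h : ℝ) ^ l * (be h : ℝ) ^ max (lo h l) J * (be h : ℝ) ^ (l * k) *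
          (be h : ℝ) ^ (l - max (lo h l) J) / (Bs h : ℝ) ^ (l + 1))
      ≤ 6 * (C0 h * 2 ^ h) * κ ^ h * (Bs h : ℝ) ^ J * 1 :=
        mul_le_mul_of_nonneg_left e5 (by positivity)
    _ = 6 * (C0 h * 2 ^ h) * κ ^ h * (Bs h : ℝ) ^ J := by ring

theorem TC (hBAS : BAS_stmt) (hWTS : WTS_stmt) (hLOW : LOW_stmt) (hELI : ELI_stmt) (hCEL : CEL_stmt)
    (hKIL : KIL_stmt) : TC_stmt := by
  intro h hodd hh
  have hC0 : 1 ≤ C0 h := TC_C0 h hh
  have hC0R : (1 : ℝ) ≤ (C0 h : ℝ) := by exact_mod_cast hC0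
  have hhR : (3 : ℝ) ≤ (h : ℝ) := by exact_mod_cast hh
  refine ⟨h * h * (6 * (C0 h * 2 ^ h)), by positivity, ?_⟩
  intro κ hκ hκ1 l0 l e he J hJ
  classical
  have hw : ∀ y, 0 ≤ wt h κ y := fun y => (hWTS h hh κ hκ hκ1 (lev h y)).2.1.le
  have hbe : 1 ≤ be h := by
    unfold be
    exact Nat.one_le_pow _ _ (by omega)
  have hbe0 : (0 : ℝ) < (be h : ℝ) := by exact_mod_cast hbe
  have hdl : dep h l ≤ l := (hBAS h hh l).2.2.1
  have hmax : max (lo h l) J ≤ l := by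
    unfold lo
    exact max_le (Nat.sub_le _ _) hJ
  set W : Finset ℕ := (U h l0 l).filter (fun x => lev h x < max (lo h l) J) with hWdef
  let V : Fin h × Fin h → Fin h → Finset ℕ := fun q i => if i = q.1 then S h l else if i = q.2 then W else U h l0 l
  let G : Fin h × Fin h → Finset (Fin h → ℕ) := fun q =>
    if q.1 = q.2 then ∅ else (Fintype.piFinset (V q)).filter (fun x => |0 + lf e x| ≤ ((Bs h ^ J : ℕ) : ℤ))
  have hcover : Ex h κ (top h l (RN e 0 (Bs h ^ J) (U h l0 l))) ≤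
      ∑ q : Fin h × Fin h, ∑ x ∈ G q, ∏ i, wt h κ (x i) := by
    unfold Ex
    refine TC_cover _ _ _ (fun x => Finset.prod_nonneg fun i _ => hw _) ?_
    intro x hx
    unfold top RN RQ Inj at hx
    simp only [Finset.mem_filter, Fintype.mem_piFinset] at hx
    obtain ⟨⟨⟨hxU, _⟩, hxP⟩, i0, hi0⟩ := hx
    have hk : ∀ i, x i ∈ S h (lev h (x i)) ∧ lev h (x i) ≤ l := by
      intro i
      have h1 := hxU i
      unfold U at h1
      rw [Finset.mem_biUnion] at h1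
      obtain ⟨k, hk1, hk2⟩ := h1
      have h2 := ((hBAS h hh k).1 _ hk2).1
      rw [h2]
      exact ⟨hk2, (Finset.mem_Icc.1 hk1).2⟩
    obtain ⟨i1, hi1⟩ := hKIL h hodd hh (fun i => lev h (x i)) x e l J he (fun i => (hk i).1) (fun i => (hk i).2)
      (by
        have := hxP
        rw [zero_add] at this
        push_cast at this
        exact this)
    have hne : i0 ≠ i1 := by
      rintro rfl
      rw [hi0] at hi1
      omega
    refine ⟨(i0, i1), ?_⟩
    change x ∈ (if i0 = i1 then ∅ else (Fintype.piFinset (V (i0, i1))).filter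
      (fun x => |0 + lf e x| ≤ ((Bs h ^ J : ℕ) : ℤ)))
    rw [if_neg hne, Finset.mem_filter, Fintype.mem_piFinset]
    refine ⟨fun i => ?_, hxP⟩
    change x i ∈ (if i = i0 then S h l else if i = i1 then W else U h l0 l)
    by_cases hi : i = i0
    · rw [if_pos hi, hi]
      have := (hk i0).1
      rw [hi0] at this
      exact this
    · rw [if_neg hi]
      by_cases hi' : i = i1
      · rw [if_pos hi', hi', hWdef, Finset.mem_filter]
        exact ⟨hxU i1, hi1⟩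
      · rw [if_neg hi']
        exact hxU i
  refine hcover.trans ?_
  have hone : ∀ q : Fin h × Fin h, ∑ x ∈ G q, ∏ i, wt h κ (x i) ≤
      6 * (C0 h * 2 ^ h) * κ ^ h * (Bs h : ℝ) ^ J / (C0 h : ℝ) ^ (5 * min (l - J) (dep h l)) := by
    rintro ⟨i0, i1⟩
    by_cases hne : i0 = i1
    · have : G (i0, i1) = ∅ := if_pos hne
      rw [this, Finset.sum_empty]
      positivity
    have hG : G (i0, i1) = (Fintype.piFinset (V (i0, i1))).filter
        (fun x => |0 + lf e x| ≤ ((Bs h ^ J : ℕ) : ℤ)) := if_neg hne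
    rw [hG]
    have hp0 : 0 ≤ pl h κ l := (hWTS h hh κ hκ hκ1 l).2.1.le
    have hV0 : V (i0, i1) i0 = S h l := if_pos rfl
    have hV1 : V (i0, i1) i1 = W := by
      change (if i1 = i0 then S h l else if i1 = i1 then W else U h l0 l) = W
      rw [if_neg (Ne.symm hne), if_pos rfl]
    have hV2 : ∀ i, i ≠ i0 → i ≠ i1 → V (i0, i1) i = U h l0 l := by
      intro i h1 h2
      change (if i = i0 then S h l else if i = i1 then W else U h l0 l) = U h l0 l
      rw [if_neg h1, if_neg h2]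
    have hD : (0 : ℝ) < (C0 h : ℝ) ^ (J - lo h l) := by positivity
    have h1 := hELI h (V (i0, i1)) (wt h κ) i0
      (fun x => |0 + lf e x| ≤ ((Bs h ^ J : ℕ) : ℤ)) (pl h κ l)
      (6 * (Bs h : ℝ) ^ J / (C0 h : ℝ) ^ (J - lo h l)) hw hp0 (by positivity)
      (by
        intro y hy
        rw [hV0] at hy
        exact ((hWTS h hh κ hκ hκ1 l).1 y hy).le)
      (by
        intro x _
        rw [hV0]
        have e1 : ∀ y : ℕ, 0 + lf e (Function.update x i0 y) =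
            (∑ i ∈ Finset.univ.erase i0, e i * (x i : ℤ)) + e i0 * (y : ℤ) := by
          intro y
          unfold lf
          rw [← Finset.add_sum_erase _ _ (Finset.mem_univ i0), Function.update_self]
          have e2 : ∑ i ∈ Finset.univ.erase i0, e i * ((Function.update x i0 y i : ℕ) : ℤ) =
              ∑ i ∈ Finset.univ.erase i0, e i * (x i : ℤ) := by
            refine Finset.sum_congr rfl fun i hi => ?_
            rw [Function.update_of_ne (Finset.ne_of_mem_erase hi)]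
          rw [e2]
          ring
        have he0 : e i0 ≠ 0 := by
          rcases he i0 with h2 | h2 <;> rw [h2] <;> norm_num
        have h2 := TC_card hCEL h hh l J hJ (e i0) (∑ i ∈ Finset.univ.erase i0, e i * (x i : ℤ)) he0
        have h3 : ((S h l).filter fun y => |0 + lf e (Function.update x i0 y)| ≤ ((Bs h ^ J : ℕ) : ℤ)) =
            (S h l).filter fun y : ℕ => |(∑ i ∈ Finset.univ.erase i0, e i * (x i : ℤ)) + e i0 * (y : ℤ)| ≤
              ((Bs h ^ J : ℕ) : ℤ) := by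
          refine Finset.filter_congr fun y _ => ?_
          rw [e1 y]
        rw [h3, le_div_iff₀ hD]
        exact_mod_cast h2)
    refine h1.trans ?_
    have hprod : ∏ i ∈ Finset.univ.erase i0, ∑ y ∈ V (i0, i1) i, wt h κ y ≤
        (κ * (be h : ℝ) ^ max (lo h l) J) * (2 * κ * (be h : ℝ) ^ l) ^ (h - 2) := by
      have hmem : i1 ∈ Finset.univ.erase i0 := Finset.mem_erase.2 ⟨Ne.symm hne, Finset.mem_univ _⟩
      rw [← Finset.mul_prod_erase _ _ hmem, hV1]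
      have h4 : ∏ i ∈ (Finset.univ.erase i0).erase i1, ∑ y ∈ V (i0, i1) i, wt h κ y ≤
          ∏ i ∈ (Finset.univ.erase i0).erase i1, (2 * κ * (be h : ℝ) ^ l) := by
        refine Finset.prod_le_prod (fun i _ => Finset.sum_nonneg fun y _ => hw y) fun i hi => ?_
        rw [Finset.mem_erase, Finset.mem_erase] at hi
        rw [hV2 i hi.2.1 hi.1]
        exact (hLOW h hh κ hκ hκ1 l0 l 0).1
      rw [Finset.prod_const, Finset.card_erase_of_mem hmem, Finset.card_erase_of_mem (Finset.mem_univ _),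
        Finset.card_univ, Fintype.card_fin] at h4
      have h5 : h - 1 - 1 = h - 2 := by omega
      rw [h5] at h4
      have h6 : ∑ y ∈ W, wt h κ y ≤ κ * (be h : ℝ) ^ max (lo h l) J :=
        (hLOW h hh κ hκ hκ1 l0 l (max (lo h l) J)).2
      exact mul_le_mul h6 h4 (Finset.prod_nonneg fun i _ => Finset.sum_nonneg fun y _ => hw y) (by positivity)
    refine le_trans ?_ (TC_num h hh κ hκ l J hJ hdl)
    exact mul_le_mul_of_nonneg_left hprod (by positivity)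
  refine (Finset.sum_le_sum fun q _ => hone q).trans ?_
  rw [Finset.sum_const, Finset.card_univ, Fintype.card_prod, Fintype.card_fin, nsmul_eq_mul]
  push_cast
  apply le_of_eq
  ring

end Pool.Agent.OB
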